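import Pool.Agent.H1.VT.Gen
import Pool.Agent.H1.TB.Sup

set_option autoImplicit false
set_option linter.unusedSectionVars false
set_option linter.unusedVariables false

/-! # Quadric bundles over the line -/

namespace Pool.Agent.H1.VT

open MvPolynomial Pool.Agent.W428.MOT Pool.Agent.TH192.MT Pool.Agent.TH192.DT Pool.Agent.Q49.CO
open Pool.Agent.Y229 Pool.Agent.Q57.MC Pool.Agent.Q57.MD
open Pool.Agent.H1.TB
open Pool.Agent.H1.QB (GQ GQ_local)

section

variable {M : Meas ℂ (MK ℂ)} (hL : M.L = ((Lu ℂ : (MK ℂ)ˣ) : MK ℂ))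
variable {N : Type} [Fintype N] [DecidableEq N]
include hL

/-- adding fibres -/
theorem add_fibres (c : Polynomial ℂ) (b : N → Polynomial ℂ) (q : N → N → Polynomial ℂ)
    (hne : qb c b q ≠ 0) (w : Polynomial ℂ) (Q : Finset (ℤ × ℤ))
    (hQ : ∀ x ∈ Q, x.1 < 0 ∧ 0 < x.2 ∧ ∃ p : Option N → ℂ,
      SF (fun _ : Fin 1 => qb c b q) p ((x.1 : ℂ) / x.2))
    (hz : SW M true (((Lu ℂ)⁻¹ : (MK ℂ)ˣ) : MK ℂ)
      (fun _ : Fin 1 => qb c b q) (Dw N w) ∈ ratU (Lu ℂ) (Q : Set (ℤ × ℤ)))
    (s : Finset ℂ) (hs : ∀ t ∈ s, w.eval t = 0) :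
    ∃ Q : Finset (ℤ × ℤ), (∀ x ∈ Q, x.1 < 0 ∧ 0 < x.2 ∧ ∃ p : Option N → ℂ,
      SF (fun _ : Fin 1 => qb c b q) p ((x.1 : ℂ) / x.2)) ∧
      SW M true (((Lu ℂ)⁻¹ : (MK ℂ)ˣ) : MK ℂ) (fun _ : Fin 1 => qb c b q)
        (Dw N w ∪ {z | ∃ t ∈ s, z none = algebraMap ℂ (AlgebraicClosure ℂ) t}) ∈
          ratU (Lu ℂ) (Q : Set (ℤ × ℤ)) := by
  classical
  induction s using Finset.induction_on with
  | empty =>
    refine ⟨Q, hQ, ?_⟩
    have h1 : (Dw N w ∪ {z : Pt ℂ (Option N) | ∃ t ∈ (∅ : Finset ℂ),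
        z none = algebraMap ℂ (AlgebraicClosure ℂ) t}) = Dw N w := by
      ext z
      simp
    rw [h1]
    exact hz
  | insert a s ha ih =>
    obtain ⟨Q₁, hQ₁, hz₁⟩ := ih fun t ht => hs t (Finset.mem_insert_of_mem ht)
    obtain ⟨Q₂, hQ₂, hz₂⟩ := fibre_at hL c b q hne a
    refine ⟨Q₁ ∪ Q₂, fun x hx => ?_, ?_⟩
    · rcases Finset.mem_union.1 hx with hx | hx
      · exact hQ₁ x hx
      · exact hQ₂ x hx
    · have h1 : (Dw N w ∪ {z : Pt ℂ (Option N) | ∃ t ∈ insert a s,
          z none = algebraMap ℂ (AlgebraicClosure ℂ) t}) = (Dw N w ∪ {z | ∃ t ∈ s,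
            z none = algebraMap ℂ (AlgebraicClosure ℂ) t}) ∪ Ft N a := by
        ext z
        simp only [Finset.mem_insert, Set.mem_union, Set.mem_ofPred_eq, Ft]
        constructor
        · rintro (h | ⟨t, rfl | ht, h⟩)
          · exact Or.inl (Or.inl h)
          · exact Or.inr h
          · exact Or.inl (Or.inr ⟨t, ht, h⟩)
        · rintro ((h | ⟨t, ht, h⟩) | h)
          · exact Or.inl h
          · exact Or.inr ⟨t, Or.inr ht, h⟩
          · exact Or.inr ⟨a, Or.inl rfl, h⟩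
      rw [h1, SW_add M (fun _ : Fin 1 => qb c b q) ((constr_Dw w).union (constr_fin s))
        (constr_Ft a) ?_]
      · exact Subalgebra.add_mem _
          (rat_mono (Lu ℂ) (fun x hx => Finset.mem_coe.2
            (Finset.mem_union_left _ (Finset.mem_coe.1 hx))) hz₁)
          (rat_mono (Lu ℂ) (fun x hx => Finset.mem_coe.2
            (Finset.mem_union_right _ (Finset.mem_coe.1 hx))) hz₂)
      · rw [Set.disjoint_left]
        rintro z (h | ⟨t, ht, h⟩) h'
        · have h2 : z none = algebraMap ℂ (AlgebraicClosure ℂ) a := h'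
          apply h
          rw [h2, Polynomial.aeval_algebraMap_apply, Polynomial.coe_aeval_eq_eval,
            hs a (Finset.mem_insert_self _ _), map_zero]
        · have h2 : z none = algebraMap ℂ (AlgebraicClosure ℂ) a := h'
          rw [h2] at h
          have h3 := (algebraMap ℂ (AlgebraicClosure ℂ)).injective h
          rw [h3] at ha
          exact ha ht

/-- **Quadric bundles over the line.** -/
theorem gm_qb (c : Polynomial ℂ) (b : N → Polynomial ℂ) (q : N → N → Polynomial ℂ)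
    (hne : qb c b q ≠ 0) : GM M true (fun _ : Fin 1 => qb c b q) := by
  classical
  -- symmetric coefficients
  obtain ⟨c', b', q', hq', h⟩ := tr_qb c b q 0
  have h0 : tr (fun o : Option N => Option.elim o (0 : ℂ) fun _ => 0) = AlgHom.id ℂ _ := by
    refine algHom_ext fun i => ?_
    rw [tr_X, AlgHom.id_apply]
    rcases i with _ | i
    · simp
    · simp
  rw [h0, AlgHom.id_apply] at h
  rw [h] at hne ⊢
  obtain ⟨w, Q, hw, hQ, hz⟩ := gen_rat hL c' b' q' hq' hne
  obtain ⟨Q', hQ', hz'⟩ := add_fibres hL c' b' q' hne w Q hQ hz w.roots.toFinset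
    (fun t ht => (Polynomial.mem_roots hw).1 (Multiset.mem_toFinset.1 ht))
  refine ⟨⟨0, hne⟩, Q', hQ', ?_⟩
  have h1 : (Set.univ : Set (Pt ℂ (Option N))) = Dw N w ∪ {z | ∃ t ∈ w.roots.toFinset,
      z none = algebraMap ℂ (AlgebraicClosure ℂ) t} := by
    ext z
    simp only [Set.mem_univ, Set.mem_union, Set.mem_ofPred_eq, true_iff]
    by_cases hz : Polynomial.aeval (z none) w = 0
    · right
      obtain ⟨t, ht⟩ := IsAlgClosed.algebraMap_bijective_of_isIntegral
        (k := ℂ) (K := AlgebraicClosure ℂ) |>.2 (z none)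
      refine ⟨t, ?_, ht.symm⟩
      rw [Multiset.mem_toFinset, Polynomial.mem_roots hw]
      rw [← ht, Polynomial.aeval_algebraMap_apply, Polynomial.coe_aeval_eq_eval,
        map_eq_zero] at hz
      exact hz
    · left
      exact hz
  rw [h1]
  exact hz'

/-- **Polynomials of degree at most two in all but one variable.** -/
theorem gm_but {σ : Type} [Fintype σ] [DecidableEq σ] {t : σ} {f : MvPolynomial σ ℂ}
    (hf : QuadricBut t f) (hne : f ≠ 0) : GM M true fun _ : Fin 1 => f := by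
  obtain ⟨c, b, q, rfl⟩ := isQ_of hf
  refine gm_ren hL (Equiv.optionSubtypeNe t) (Equiv.refl (Fin 1)) _ _ (fun _ => rfl)
    (gm_qb hL c b q fun h => hne ?_)
  rw [h, map_zero]

end

end Pool.Agent.H1.VT
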