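import Pool.Agent.H1.VT.MR
import Pool.Agent.H1.TB.Fib

set_option autoImplicit false
set_option linter.unusedSectionVars false
set_option linter.unusedVariables false

/-! # Quadric bundles along a fibre -/

namespace Pool.Agent.H1.VT

open MvPolynomial Pool.Agent.W428.MOT Pool.Agent.TH192.MT Pool.Agent.TH192.DT Pool.Agent.Q49.CO
open Pool.Agent.Y229 Pool.Agent.Q57.MC Pool.Agent.Q57.MD
open Pool.Agent.H1.TB
open Pool.Agent.H1.QB (GQ GQ_local)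

section

variable {M : Meas ℂ (MK ℂ)} (hL : M.L = ((Lu ℂ : (MK ℂ)ˣ) : MK ℂ))
variable {N : Type} [Fintype N] [DecidableEq N]
include hL

/-- **The fibre over `0`.** -/
theorem fibre_zero (c : Polynomial ℂ) (b : N → Polynomial ℂ) (q : N → N → Polynomial ℂ)
    (hq : ∀ j k, q j k = q k j) (hne : qb c b q ≠ 0) :
    ∃ Q : Finset (ℤ × ℤ), (∀ x ∈ Q, x.1 < 0 ∧ 0 < x.2 ∧ ∃ p : Option N → ℂ,
      SF (fun _ : Fin 1 => qb c b q) p ((x.1 : ℂ) / x.2)) ∧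
      SW M true (((Lu ℂ)⁻¹ : (MK ℂ)ˣ) : MK ℂ)
        (fun _ : Fin 1 => qb c b q) (F0 ℂ N) ∈ ratU (Lu ℂ) (Q : Set (ℤ × ℤ)) := by
  classical
  obtain ⟨d⟩ := fd_GQ c b q hq
  obtain ⟨ι, α, hι, hα, hαι⟩ := complete d.r d.hr
  have hT : Nonempty d.T ∨ d.ζ = true := by
    by_contra hcon
    push Not at hcon
    obtain ⟨h1, h2⟩ := hcon
    have h3 := d.heq
    rw [Finset.sum_of_isEmpty, zero_add, if_neg h2] at h3
    obtain ⟨cD, gD, hcD, hD⟩ := d.hD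
    have h4 : d.D ≠ 0 := by
      intro h0
      have h5 := congrArg constantCoeff hD
      rw [h0, map_zero, map_add, map_mul, constantCoeff_X, constantCoeff_C, zero_mul,
        add_zero] at h5
      exact hcD h5.symm
    exact hne ((mul_eq_zero.1 h3).resolve_left h4)
  obtain ⟨Q, hQ, hz⟩ := mdl_rat hL ι hι d.m d.e (fun j => (d.he j).1) d.ζ d.k d.hk hT
  refine ⟨Q, fun x hx => ?_, ?_⟩
  · obtain ⟨h1, h2, p, hp, h3⟩ := hQ x hx
    obtain ⟨p', -, h4⟩ := fd_sf d ι α hι hα hαι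
      (mdl_ne ι hι d.m d.e (fun j => (d.he j).1) d.ζ d.k hT) p hp _ h3
    exact ⟨h1, h2, p', h4⟩
  · rw [SW_congr M true _ rfl (qb c b q) (mdl ℂ ι d.m d.e d.ζ d.k) (F0 ℂ N) (F0 ℂ N)
      fun L => chi_mdl M d ι α hι hα hαι L]
    exact hz

/-- **The fibre over a point.** -/
theorem fibre_at (c : Polynomial ℂ) (b : N → Polynomial ℂ) (q : N → N → Polynomial ℂ)
    (hne : qb c b q ≠ 0) (t : ℂ) :
    ∃ Q : Finset (ℤ × ℤ), (∀ x ∈ Q, x.1 < 0 ∧ 0 < x.2 ∧ ∃ p : Option N → ℂ,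
      SF (fun _ : Fin 1 => qb c b q) p ((x.1 : ℂ) / x.2)) ∧
      SW M true (((Lu ℂ)⁻¹ : (MK ℂ)ˣ) : MK ℂ)
        (fun _ : Fin 1 => qb c b q) (Ft N t) ∈ ratU (Lu ℂ) (Q : Set (ℤ × ℤ)) := by
  classical
  obtain ⟨c', b', q', hq', h⟩ := tr_qb c b q t
  obtain ⟨Q, hQ, hz⟩ := fibre_zero hL c' b' q' hq' (by
    rw [← h]
    exact tr_inj _ _ hne)
  refine ⟨Q, fun x hx => ?_, ?_⟩
  · obtain ⟨h1, h2, p, h3⟩ := hQ x hx
    rw [← h] at h3
    exact ⟨h1, h2, _, sf_tr _ _ _ _ h3⟩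
  · rw [SW_congr M true _ rfl (qb c b q) (qb c' b' q') (Ft N t) (F0 ℂ N) fun L => ?_]
    · exact hz
    · rw [← h]
      refine chi_tr M _ _ (constr_Ft t) constr_F0 fun z => ?_
      change z none = 0 ↔ z none + algebraMap ℂ (AlgebraicClosure ℂ) t = algebraMap ℂ _ t
      rw [add_eq_right]

end

end Pool.Agent.H1.VT
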