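import Pool.Agent.H1.VT.Fib
import Pool.Agent.H1.TB.Gen2

set_option autoImplicit false
set_option linter.unusedSectionVars false
set_option linter.unusedVariables false

/-! # Quadric bundles over the general points -/

namespace Pool.Agent.H1.VT

open MvPolynomial Pool.Agent.W428.MOT Pool.Agent.TH192.MT Pool.Agent.TH192.DT Pool.Agent.Q49.CO
open Pool.Agent.Y229 Pool.Agent.Q57.MC Pool.Agent.Q57.MD
open Pool.Agent.H1.TB
open Pool.Agent.H1.QB (GQ coeff1_mul)

section

variable {M : Meas ℂ (MK ℂ)} (hL : M.L = ((Lu ℂ : (MK ℂ)ˣ) : MK ℂ))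
variable {N : Type} [Fintype N] [DecidableEq N] {T : Type} [Fintype T] [DecidableEq T]
include hL

/-- **Smooth zero sets.** -/
theorem smooth_rat {σ : Type} [Fintype σ] [DecidableEq σ] (f : MvPolynomial σ ℂ)
    (W : Set (Pt ℂ σ)) (hW : Constr W)
    (hs : ∀ p : σ → ℂ, cpt p ∈ W → eval p f = 0 → ∃ i, eval p (pderiv i f) ≠ 0) :
    ∃ Q : Finset (ℤ × ℤ), (∀ q ∈ Q, q.1 < 0 ∧ 0 < q.2 ∧ ∃ p, cpt p ∈ W ∧
      SF (fun _ : Fin 1 => f) p ((q.1 : ℂ) / q.2)) ∧
      SW M true (((Lu ℂ)⁻¹ : (MK ℂ)ˣ) : MK ℂ) (fun _ : Fin 1 => f) W ∈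
        ratU (Lu ℂ) (Q : Set (ℤ × ℤ)) := by
  classical
  refine charts_on hL (fun _ : Fin 1 => f)
    (Finset.univ.image fun i : σ => (⟨1, 1, ![f], 1, ![i], mono ![1]⟩ : Chart σ)) ?_ W hW ?_ ?_
  · intro A hA
    obtain ⟨i, -, rfl⟩ := Finset.mem_image.1 hA
    refine fits_mono ![f] 1 ![1] 0 ![i] _ ?_
    simp
  · intro p hp hz
    obtain ⟨i, hi⟩ := hs p hp (hz 0)
    refine ⟨_, Finset.mem_image_of_mem _ (Finset.mem_univ i), ?_, ?_, ?_⟩
    · simp
    · intro t
      have h0 : t = 0 := Subsingleton.elim _ _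
      subst h0
      exact hz 0
    · rw [Matrix.det_fin_one, Matrix.of_apply]
      exact hi
  · intro A hA
    obtain ⟨i, -, rfl⟩ := Finset.mem_image.1 hA
    exact Pool.Agent.H1.VT.pm_mono hL _

/-- **The generic models.** -/
theorem gmd_rat (ι : T → N) (hι : Function.Injective ι) (e : T → ℕ)
    (he : ∀ j, 0 < e j ∧ e j ≤ 2) (U : T → Polynomial ℂ) (w : Polynomial ℂ) (hw : w ≠ 0)
    (hU : ∀ j, U j ∣ w) (c : Polynomial ℂ) (hc : c ≠ 0 → c ∣ w) (h : Nonempty T ∨ c ≠ 0) :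
    ∃ Q : Finset (ℤ × ℤ), (∀ q ∈ Q, q.1 < 0 ∧ 0 < q.2 ∧ ∃ p : Option N → ℂ,
      w.eval (p none) ≠ 0 ∧ SF (fun _ : Fin 1 => gmd ι e U c) p ((q.1 : ℂ) / q.2)) ∧
      SW M true (((Lu ℂ)⁻¹ : (MK ℂ)ˣ) : MK ℂ)
        (fun _ : Fin 1 => gmd ι e U c) (Dw N w) ∈ ratU (Lu ℂ) (Q : Set (ℤ × ℤ)) := by
  classical
  have hv : M.L * (((Lu ℂ)⁻¹ : (MK ℂ)ˣ) : MK ℂ) = 1 := by rw [hL, Units.mul_inv]
  have hdv : ∀ u : Polynomial ℂ, u ∣ w → ∀ t, w.eval t ≠ 0 → u.eval t ≠ 0 := by
    rintro u ⟨z, rfl⟩ t ht h0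
    rw [Polynomial.eval_mul, h0, zero_mul] at ht
    exact ht rfl
  by_cases hA : c ≠ 0 ∨ ∃ j, e j = 1
  · obtain ⟨Q, hQ, hz⟩ := smooth_rat hL (gmd ι e U c) (Dw N w) (constr_Dw w) fun p hp hz => by
      rw [cpt_Dw] at hp
      by_contra hcon
      push Not at hcon
      have h1 : ∀ j, (e j : ℂ) * p (some (ι j)) ^ (e j - 1) = 0 := by
        intro j
        have h2 := hcon (some (ι j))
        rw [pderiv_gmd ι hι] at h2
        exact (mul_eq_zero.1 h2).resolve_left (hdv _ (hU j) _ hp)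
      have h2 : ∀ j, e j ≠ 1 := by
        intro j hj
        have h3 := h1 j
        rw [hj, Nat.sub_self, pow_zero, Nat.cast_one, mul_one] at h3
        exact one_ne_zero h3
      have h3 : c ≠ 0 := hA.resolve_right fun ⟨j, hj⟩ => h2 j hj
      rw [eval_gmd, Finset.sum_eq_zero, zero_add] at hz
      · exact hdv c (hc h3) _ hp hz
      · intro j _
        have h4 : e j = 2 := by
          have := he j
          have := h2 j
          omega
        have h5 := h1 j
        rw [h4] at h5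
        have h6 : p (some (ι j)) = 0 := by simpa using h5
        rw [h6, h4]
        simp
    exact ⟨Q, fun q hq => by
      obtain ⟨h1, h2, p, h3, h4⟩ := hQ q hq
      exact ⟨h1, h2, p, (cpt_Dw w p).1 h3, h4⟩, hz⟩
  · push Not at hA
    obtain ⟨rfl, he1⟩ := hA
    have he2 : e = fun _ => 2 := by
      funext j
      have := he j
      have := he1 j
      omega
    subst he2
    have hT : Nonempty T := h.resolve_right (fun h => h rfl)
    set f := gmd ι (fun _ => 2) U 0 with hf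
    set S : Finset (Option N) := Finset.univ.image fun j => some (ι j) with hS
    have hScard : S.card = Fintype.card T := by
      rw [hS, Finset.card_image_of_injective _ fun i j hij => hι (Option.some_injective _ hij),
        Finset.card_univ]
    have hnS : none ∉ S := by simp [hS]
    obtain ⟨Q, hQ, hz⟩ := smooth_rat hL f (Dw N w ∩ (CT ℂ S)ᶜ)
      ((constr_Dw w).inter (constr_CT S).compl) fun p hp _ => by
      have hp1 := (cpt_Dw w p).1 hp.1
      by_contra hcon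
      push Not at hcon
      refine hp.2 fun i hi => ?_
      obtain ⟨j, -, rfl⟩ := Finset.mem_image.1 hi
      have h2 := hcon (some (ι j))
      rw [hf, pderiv_gmd ι hι] at h2
      have h3 := (mul_eq_zero.1 h2).resolve_left (hdv _ (hU j) _ hp1)
      have h6 : p (some (ι j)) = 0 := by simpa using h3
      change algebraMap ℂ (AlgebraicClosure ℂ) (p (some (ι j))) = 0
      rw [h6, map_zero]
    obtain ⟨t, ht⟩ : ∃ t, w.eval t ≠ 0 := by
      by_contra hcon
      push Not at hcon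
      exact hw (Polynomial.funext fun t => by rw [hcon, Polynomial.eval_zero])
    refine ⟨insert (-(S.card : ℤ), 2) Q, fun q hq => ?_, ?_⟩
    · rcases Finset.mem_insert.1 hq with rfl | hq
      · refine ⟨?_, by norm_num, fun o => o.elim t fun _ => 0, ht, ?_⟩
        · simp only
          have := Fintype.card_pos (α := T)
          omega
        · simp only
          have h1 := sf_gmd ι hι U t fun j => hdv _ (hU j) _ ht
          rw [hScard]
          push_cast
          exact h1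
      · obtain ⟨h1, h2, p, h3, h4⟩ := hQ q hq
        exact ⟨h1, h2, p, (cpt_Dw w p).1 h3.1, h4⟩
    · have hc' : SW M true (((Lu ℂ)⁻¹ : (MK ℂ)ˣ) : MK ℂ) (fun _ : Fin 1 => f)
          (Dw N w ∩ (CT ℂ S)ᶜ) ∈
          ratU (Lu ℂ) ((insert (-(S.card : ℤ), 2) Q : Finset (ℤ × ℤ)) : Set (ℤ × ℤ)) :=
        rat_mono (Lu ℂ) (fun q hq => Finset.mem_coe.2 (Finset.mem_insert_of_mem
          (Finset.mem_coe.1 hq))) hz
      have h3 : SW M true (((Lu ℂ)⁻¹ : (MK ℂ)ˣ) : MK ℂ) (fun _ : Fin 1 => f)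
          (CT ℂ S ∩ Dw N w) ∈
          ratU (Lu ℂ) ((insert (-(S.card : ℤ), 2) Q : Finset (ℤ × ℤ)) : Set (ℤ × ℤ)) := by
        obtain ⟨a, n', h2⟩ := SW_rel M (b := true) hv S (fun _ : Fin 1 => f) 2
          (fun _ => ht_gmd ι U) (W := Dw N w) (constr_Dw w) (fun z z' hzz hz => by
            change Polynomial.aeval (z' none) w ≠ 0
            rw [hzz none hnS]
            exact hz)
        refine geo_solve (Lu ℂ) (ν := S.card) (N := 2) two_pos
          (Finset.mem_coe.2 (Finset.mem_insert_self _ _)) _ _ ?_ h2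
        exact Subalgebra.add_mem _ (Subalgebra.mul_mem _ (rat_C _ _)
          (Subalgebra.sum_mem _ fun i _ => Subalgebra.pow_mem _ (rat_X _) _))
          (Subalgebra.mul_mem _ (Subalgebra.mul_mem _ (rat_C _ _)
            (Subalgebra.pow_mem _ (rat_X _) _)) hc')
      have h4 : Dw N w = (Dw N w ∩ (CT ℂ S)ᶜ) ∪ (CT ℂ S ∩ Dw N w) := by
        ext z
        simp only [Set.mem_union, Set.mem_inter_iff, Set.mem_compl_iff]
        tauto
      rw [h4, SW_add M (fun _ : Fin 1 => f) ((constr_Dw w).inter (constr_CT S).compl)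
        ((constr_CT S).inter (constr_Dw w))
        (Set.disjoint_left.2 fun z h h' => h.2 h'.1)]
      exact Subalgebra.add_mem _ hc' h3

/-- **Quadric bundles over the general points.** -/
theorem gen_rat (c : Polynomial ℂ) (b : N → Polynomial ℂ) (q : N → N → Polynomial ℂ)
    (hq : ∀ j k, q j k = q k j) (hne : qb c b q ≠ 0) :
    ∃ (w : Polynomial ℂ) (Q : Finset (ℤ × ℤ)), w ≠ 0 ∧
      (∀ x ∈ Q, x.1 < 0 ∧ 0 < x.2 ∧ ∃ p : Option N → ℂ,
        SF (fun _ : Fin 1 => qb c b q) p ((x.1 : ℂ) / x.2)) ∧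
      SW M true (((Lu ℂ)⁻¹ : (MK ℂ)ˣ) : MK ℂ)
        (fun _ : Fin 1 => qb c b q) (Dw N w) ∈ ratU (Lu ℂ) (Q : Set (ℤ × ℤ)) := by
  classical
  obtain ⟨T, _, ι, e, U, α, β, c', D, hι, he, hU, hα, hD, heq⟩ := exists_gd c b q hq
  have heq' : pt D * qb c b q = aeval (opt (aff α β)) (gmd ι e U c') := heq
  set w : Polynomial ℂ := D * α.det * (∏ j, U j) * (if c' = 0 then 1 else c') with hw
  have hw0 : w ≠ 0 := by
    refine mul_ne_zero (mul_ne_zero (mul_ne_zero hD hα)
      (Finset.prod_ne_zero_iff.2 fun j _ => hU j)) ?_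
    split_ifs with h
    · exact one_ne_zero
    · exact h
  have hDw : D ∣ w := ⟨α.det * (∏ j, U j) * (if c' = 0 then 1 else c'), by rw [hw]; ring⟩
  have hαw : α.det ∣ w := ⟨D * (∏ j, U j) * (if c' = 0 then 1 else c'), by rw [hw]; ring⟩
  have hUw : ∀ j, U j ∣ w := by
    intro j
    obtain ⟨z, hz⟩ := Finset.dvd_prod_of_mem U (Finset.mem_univ j)
    exact ⟨D * α.det * z * (if c' = 0 then 1 else c'), by rw [hw, hz]; ring⟩
  have hcw : c' ≠ 0 → c' ∣ w := by
    intro h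
    rw [hw, if_neg h]
    exact dvd_mul_left _ _
  have hT : Nonempty T ∨ c' ≠ 0 := by
    by_contra hcon
    push Not at hcon
    obtain ⟨h1, h2⟩ := hcon
    have h3 : gmd ι e U c' = 0 := by
      unfold gmd
      rw [Finset.sum_of_isEmpty, zero_add, h2, pt_zero]
    rw [h3, map_zero] at heq'
    have h4 : (pt D : MvPolynomial (Option N) ℂ) ≠ 0 := by
      intro h0
      obtain ⟨t, ht⟩ : ∃ t, D.eval t ≠ 0 := by
        by_contra hcon
        push Not at hcon
        exact hD (Polynomial.funext fun t => by rw [hcon, Polynomial.eval_zero])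
      have h5 := eval_pt (N := N) (fun _ => t) D
      rw [h0, map_zero] at h5
      exact ht h5.symm
    exact hne ((mul_eq_zero.1 heq').resolve_left h4)
  obtain ⟨Q, hQ, hz⟩ := gmd_rat hL ι hι e he U w hw0 hUw c' hcw hT
  have hdv : ∀ u : Polynomial ℂ, u ∣ w → ∀ t, w.eval t ≠ 0 → u.eval t ≠ 0 := by
    rintro u ⟨z, hz⟩ t ht h0
    rw [hz, Polynomial.eval_mul, h0, zero_mul] at ht
    exact ht rfl
  refine ⟨w, Q, hw0, fun x hx => ?_, ?_⟩
  · obtain ⟨h1, h2, p, h3, h4⟩ := hQ x hx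
    obtain ⟨p', h5⟩ := sf_open α β (qb c b q) (gmd ι e U c') D
      (gmd_ne ι hι e (fun j => (he j).1) U hU c' hT) heq' p (hdv _ hDw _ h3) (hdv _ hαw _ h3) _
      h4
    exact ⟨h1, h2, p', h5⟩
  · rw [SW_congr M true _ rfl (qb c b q) (gmd ι e U c') (Dw N w) (Dw N w) fun L =>
      chi_open M α β w hαw (qb c b q) (gmd ι e U c') (pt D) (fun z hz => ?_) heq']
    · exact hz
    · rw [aeval_pt']
      obtain ⟨y, hy⟩ := hDw
      intro h0
      apply hz
      rw [hy, map_mul, h0, zero_mul]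

end

end Pool.Agent.H1.VT
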