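import Pool.Agent.H1.VT.Ops

set_option autoImplicit false
set_option linter.unusedSectionVars false
set_option linter.unusedVariables false

/-! # Polynomial automorphisms -/

namespace Pool.Agent.H1.VT

open MvPolynomial Pool.Agent.W428.MOT Pool.Agent.TH192.MT Pool.Agent.TH192.DT Pool.Agent.Q49.CO
open Pool.Agent.Y229 Pool.Agent.Q57.MC Pool.Agent.Q57.MD Pool.Agent.H1.TB

section chain

variable {σ : Type} [Fintype σ] [DecidableEq σ]

/-- the chain rule -/
theorem pderiv_hom (φ : MvPolynomial σ ℂ →ₐ[ℂ] MvPolynomial σ ℂ) (i : σ)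
    (P : MvPolynomial σ ℂ) :
    pderiv i (φ P) = ∑ j, φ (pderiv j P) * pderiv i (φ (X j)) := by
  induction P using MvPolynomial.induction_on with
  | C c =>
    rw [algHom_C, algebraMap_eq, pderiv_C]
    simp
  | add P Q hP hQ =>
    simp only [map_add, hP, hQ, add_mul, Finset.sum_add_distrib]
  | mul_X P k hP =>
    rw [map_mul, Derivation.leibniz, hP]
    simp only [Derivation.leibniz, smul_eq_mul, map_add, map_mul, add_mul,
      Finset.sum_add_distrib, Finset.mul_sum]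
    congr 1
    · rw [Finset.sum_eq_single k]
      · rw [pderiv_X_self, map_one, mul_one]
      · intro j _ hj
        rw [pderiv_X_of_ne hj.symm, map_zero, mul_zero, zero_mul]
      · exact fun h => absurd (Finset.mem_univ _) h
    · exact Finset.sum_congr rfl fun j _ => by ring

/-- the Jacobian determinant of an automorphism has no zeros -/
theorem jac_aut (φ : MvPolynomial σ ℂ ≃ₐ[ℂ] MvPolynomial σ ℂ) (p : σ → ℂ) :
    (Matrix.of fun u t : σ => eval p (pderiv u (φ (X t)))).det ≠ 0 := by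
  have h1 : (Matrix.of fun u t : σ => pderiv u (φ (X t))) *
      (Matrix.of fun t k : σ => φ (pderiv t (φ.symm (X k)))) = 1 := by
    ext1 u k
    rw [Matrix.mul_apply, Matrix.one_apply]
    have h2 := pderiv_hom (φ : MvPolynomial σ ℂ →ₐ[ℂ] MvPolynomial σ ℂ) u (φ.symm (X k))
    simp only [AlgEquiv.coe_toAlgHom, AlgEquiv.apply_symm_apply] at h2
    simp only [Matrix.of_apply]
    have h3 : (∑ j, pderiv u (φ (X j)) * φ (pderiv j (φ.symm (X k)))) =
        pderiv u (X k : MvPolynomial σ ℂ) := by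
      rw [h2]
      exact Finset.sum_congr rfl fun j _ => mul_comm _ _
    rw [h3]
    split_ifs with h
    · rw [h, pderiv_X_self]
    · rw [pderiv_X_of_ne (Ne.symm h)]
  have h4 := congrArg (fun A : Matrix σ σ (MvPolynomial σ ℂ) => eval p A.det) h1
  simp only [Matrix.det_mul, map_mul, Matrix.det_one, map_one] at h4
  intro h0
  have h5 : eval p (Matrix.of fun u t : σ => pderiv u (φ (X t))).det = 0 := by
    rw [← h0, RingHom.map_det]
    rfl
  rw [h5, zero_mul] at h4
  exact zero_ne_one h4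

end chain

/-- the jets -/
theorem chi_hom {n : ℕ} {J R : Type} [Finite J] [CommRing R] (M : Meas ℂ R) {L : ℕ}
    (ξ η : MvPolynomial (Fin n) ℂ →ₐ[ℂ] MvPolynomial (Fin n) ℂ) (h1 : ∀ q, ξ (η q) = q)
    (h2 : ∀ q, η (ξ q) = q) (f : J → MvPolynomial (Fin n) ℂ) :
    M.χ _ (GW f Set.univ L L) = M.χ _ (GW (fun j => ξ (f j)) Set.univ L L) := by
  have hcomp : ∀ (x : Fin n → PowerSeries (AlgebraicClosure ℂ))
      (ξ : MvPolynomial (Fin n) ℂ →ₐ[ℂ] MvPolynomial (Fin n) ℂ) (P : MvPolynomial (Fin n) ℂ),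
      aeval (fun o => aeval x (ξ (X o))) P = aeval x (ξ P) := by
    intro x ξ P
    have h1 : (aeval fun o => aeval x (ξ (X o))) =
        ((aeval x : MvPolynomial (Fin n) ℂ →ₐ[ℂ] PowerSeries (AlgebraicClosure ℂ)).comp ξ) := by
      refine algHom_ext fun i => ?_
      rw [AlgHom.comp_apply, aeval_X]
    rw [h1, AlgHom.comp_apply]
  have key : ∀ (ξ η : MvPolynomial (Fin n) ℂ →ₐ[ℂ] MvPolynomial (Fin n) ℂ)
      (h1 : ∀ q, ξ (η q) = q) (z : Pt ℂ (Fin n × Fin (L + 1))) (i : Fin n),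
      Cg L (aeval (ar (tj L fun o => aeval (ar z) (ξ (X o)))) (η (X i))) (ar z i) := by
    intro ξ η h1 z i
    refine cg_trans (cg_aevalK (η (X i)) L _ _ (ar_tj L fun o => aeval (ar z) (ξ (X o)))) ?_
    have h3 := hcomp (ar z) ξ (η (X i))
    rw [h3, h1, aeval_X]
    exact cg_refl _
  refine chi_cov M f (fun j => ξ (f j)) Constr.univ Constr.univ
    (fun z o => aeval (ar z) (η (X o))) (fun z o => aeval (ar z) (ξ (X o)))
    (fun o => ra_poly _ (fun z => z) (fun i => IsPF.coord _) _)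
    (fun o => ra_poly _ (fun z => z) (fun i => IsPF.coord _) _)
    (fun z _ => trivial) (fun z _ => trivial) (fun z _ i => key η ξ h2 z i)
    (fun z _ i => key ξ η h1 z i) fun z _ => ?_
  refine forall_congr' fun j => ?_
  have h3 := hcomp (ar z) η (ξ (f j))
  rw [h3, h2]

theorem chi_aut {n : ℕ} {J R : Type} [Finite J] [CommRing R] (M : Meas ℂ R) {L : ℕ}
    (φ : MvPolynomial (Fin n) ℂ ≃ₐ[ℂ] MvPolynomial (Fin n) ℂ) (f : J → MvPolynomial (Fin n) ℂ) :
    M.χ _ (GW f Set.univ L L) = M.χ _ (GW (fun j => φ (f j)) Set.univ L L) :=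
  chi_hom M φ.toAlgHom φ.symm.toAlgHom (fun q => φ.apply_symm_apply q)
    (fun q => φ.symm_apply_apply q) f

/-- the roots -/
theorem sf_aut {n : ℕ} {J : Type} [Fintype J] [DecidableEq J]
    (φ : MvPolynomial (Fin n) ℂ ≃ₐ[ℂ] MvPolynomial (Fin n) ℂ)
    (f : J → MvPolynomial (Fin n) ℂ) (hf : ∃ j, f j ≠ 0) (p : Fin n → ℂ) (α : ℂ)
    (h : SF f p α) : SF (fun j => φ (f j)) (fun i => eval p (φ.symm (X i))) α := by
  classical
  set h0 : J → MvPolynomial (Fin n) ℂ := fun k => aeval (fun i => X i + C (p i)) (f k) with hh0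
  have hsf : SF h0 0 α := (Pool.Agent.Q149.QT.qt_trans f p α).1 h
  have hback : ∀ q : MvPolynomial (Fin n) ℂ,
      aeval (fun i => φ (X i) - C (p i)) (aeval (fun i => X i + C (p i)) q :
        MvPolynomial (Fin n) ℂ) = φ q := by
    intro q
    have h1 : ((aeval fun i => φ (X i) - C (p i) :
        MvPolynomial (Fin n) ℂ →ₐ[ℂ] MvPolynomial (Fin n) ℂ).comp
        (aeval fun i => X i + C (p i))) = (φ : MvPolynomial (Fin n) ℂ →ₐ[ℂ] _) := by
      refine algHom_ext fun i => ?_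
      rw [AlgHom.comp_apply, aeval_X, map_add, aeval_X, algHom_C]
      simp
    exact congrArg (fun θ : MvPolynomial (Fin n) ℂ →ₐ[ℂ] MvPolynomial (Fin n) ℂ => θ q) h1
  have hne : ∃ k, h0 k ≠ 0 := by
    obtain ⟨k, hk⟩ := hf
    refine ⟨k, fun h1 => hk ?_⟩
    have h2 := hback (f k)
    change aeval (fun i => φ (X i) - C (p i)) (h0 k) = φ (f k) at h2
    rw [h1, map_zero] at h2
    exact (map_eq_zero_iff φ φ.injective).1 h2.symm
  set e := Fintype.equivFin J with he
  have hfit : Same (fun j => φ (f j)) (fun k => h0 (e.symm k)) (fun i => φ (X i) - C (p i)) 1 := by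
    have h1 := same_one (fun k => h0 (e.symm k))
      (fun i => φ (X i) - C (p i) : Fin n → MvPolynomial (Fin n) ℂ)
    have h2 : (fun k => aeval (fun i => φ (X i) - C (p i)) (h0 (e.symm k))) =
        fun k => φ (f (e.symm k)) := by
      funext k
      exact hback _
    rw [h2] at h1
    unfold Same at h1 ⊢
    rw [← h1]
    congr 1
    exact (e.symm.surjective.range_comp fun j => algebraMap (MvPolynomial (Fin n) ℂ)
      (Localization.Away (1 : MvPolynomial (Fin n) ℂ)) (φ (f j))).symm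
  have hsf' : SF (fun k => h0 (e.symm k)) 0 α := by
    refine sf_equiv (Equiv.refl (Fin n)) e h0 (fun k => h0 (e.symm k)) (fun j => ?_) 0 α hsf
    rw [Equiv.symm_apply_apply]
    exact (rename_id_apply _).symm
  have hne' : ∃ k, h0 (e.symm k) ≠ 0 := by
    obtain ⟨j, hj⟩ := hne
    exact ⟨e j, by rwa [Equiv.symm_apply_apply]⟩
  refine sf_chart (fun j => φ (f j)) (Chart.mk n (Fintype.card J)
    (fun i => φ (X i) - C (p i)) 1 id fun k => h0 (e.symm k)) hfit hne' _ ?_ α
    fun b hb => hsf'.localBI b hb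
  have hev : ∀ q : MvPolynomial (Fin n) ℂ, eval (fun i => eval p (φ.symm (X i))) (φ q) =
      eval p q := by
    intro q
    have h1 : (((aeval fun i => eval p (φ.symm (X i)) : MvPolynomial (Fin n) ℂ →ₐ[ℂ] ℂ)).comp
        (φ : MvPolynomial (Fin n) ℂ →ₐ[ℂ] MvPolynomial (Fin n) ℂ)) = aeval p := by
      have h3 : (aeval fun i => eval p (φ.symm (X i)) : MvPolynomial (Fin n) ℂ →ₐ[ℂ] ℂ) =
          (aeval p).comp (φ.symm : MvPolynomial (Fin n) ℂ →ₐ[ℂ] MvPolynomial (Fin n) ℂ) := by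
        refine algHom_ext fun i => ?_
        rw [AlgHom.comp_apply, aeval_X]
        rfl
      rw [h3]
      refine algHom_ext fun i => ?_
      simp
    exact congrArg (fun θ : MvPolynomial (Fin n) ℂ →ₐ[ℂ] ℂ => θ q) h1
  refine ⟨by rw [map_one]; exact one_ne_zero, fun t => ?_, ?_⟩
  · change eval _ (φ (X t) - C (p t)) = 0
    rw [map_sub, hev, eval_X, eval_C, sub_self]
  · change (Matrix.of fun u t : Fin n => eval (fun i => eval p (φ.symm (X i)))
      (pderiv (id u) (φ (X t) - C (p t) : MvPolynomial (Fin n) ℂ))).det ≠ 0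
    have h1 := jac_aut φ (fun i => eval p (φ.symm (X i)))
    have h2 : (fun u t : Fin n => eval (fun i => eval p (φ.symm (X i)))
      (pderiv (id u) (φ (X t) - C (p t) : MvPolynomial (Fin n) ℂ))) =
        fun u t : Fin n => eval (fun i => eval p (φ.symm (X i))) (pderiv u (φ (X t))) := by
      funext u t
      have h3 : pderiv (id u) (φ (X t) - C (p t) : MvPolynomial (Fin n) ℂ) =
          pderiv u (φ (X t)) := by
        rw [map_sub, pderiv_C, sub_zero]
        rfl
      rw [h3]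
    rw [h2]
    exact h1

/-- **Automorphisms.** -/
theorem gm_aut {M : Meas ℂ (MK ℂ)} {b : Bool} {n : ℕ} {J : Type} [Fintype J]
    (φ : MvPolynomial (Fin n) ℂ ≃ₐ[ℂ] MvPolynomial (Fin n) ℂ)
    (f : J → MvPolynomial (Fin n) ℂ) (h : GM M b f) : GM M b fun j => φ (f j) := by
  classical
  obtain ⟨⟨j, hj⟩, S, hS, hz⟩ := h
  refine ⟨⟨j, fun h0 => hj ((map_eq_zero_iff φ φ.injective).1 h0)⟩, S, fun q hq => ?_, ?_⟩
  · obtain ⟨h1, h2, p, h3⟩ := hS q hq
    exact ⟨h1, h2, _, sf_aut φ f ⟨j, hj⟩ p _ h3⟩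
  · have h1 : ∀ N, vol M (((Lu ℂ)⁻¹ : (MK ℂ)ˣ) : MK ℂ) (fun j => φ (f j)) Set.univ N =
        vol M (((Lu ℂ)⁻¹ : (MK ℂ)ˣ) : MK ℂ) f Set.univ N := by
      intro N
      unfold vol
      rw [chi_aut M φ f]
    have h2 : SW M b (((Lu ℂ)⁻¹ : (MK ℂ)ˣ) : MK ℂ) (fun j => φ (f j)) Set.univ =
        SW M b (((Lu ℂ)⁻¹ : (MK ℂ)ˣ) : MK ℂ) f Set.univ := by
      cases b
      · rw [SW_false, SW_false]
        ext N
        simp only [ZW, PowerSeries.coeff_mk, h1]
      · rw [SW_true, SW_true]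
        ext N
        rw [coeff_VW, coeff_VW, h1]
    rw [h2]
    exact hz

end Pool.Agent.H1.VT
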