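import Pool.Agent.H1.VT.Aut
import Pool.Agent.H1.VT.Asm

set_option autoImplicit false
set_option linter.unusedSectionVars false
set_option linter.unusedVariables false

/-! # The class of ideals -/

namespace Pool.Agent.H1.VT

open MvPolynomial Pool.Agent.W428.MOT Pool.Agent.TH192.MT Pool.Agent.TH192.DT Pool.Agent.Q49.CO
open Pool.Agent.Y229 Pool.Agent.Q57.MC Pool.Agent.Q57.MD Pool.Agent.H1.TB
open Pool.Agent.Q57.QT (pw pw_ne span_pw)
open Pool.Agent.W425.ND (spa)
open Pool.Agent.W425.SM (Ind)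

section base

variable {M : Meas ℂ (MK ℂ)} (hL : M.L = ((Lu ℂ : (MK ℂ)ˣ) : MK ℂ))
include hL

/-- the constant polynomial -/
theorem gm_oneB {b : Bool} {σ : Type} [Fintype σ] :
    GM M b (fun _ : Fin 1 => (1 : MvPolynomial σ ℂ)) := by
  have hv : M.L * (((Lu ℂ)⁻¹ : (MK ℂ)ˣ) : MK ℂ) = 1 := by rw [hL, Units.mul_inv]
  refine ⟨⟨0, one_ne_zero⟩, ∅, fun q hq => absurd hq (Finset.notMem_empty q), ?_⟩
  obtain ⟨a, ha⟩ := SW_off M (b := b) hv (fun _ : Fin 1 => (1 : MvPolynomial σ ℂ))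
    (W := Set.univ) Constr.univ fun w _ => ⟨0, by rw [map_one]; exact one_ne_zero⟩
  rw [ha]
  exact rat_C _ _

/-- the powers of one variable -/
theorem gm_pow1 {b : Bool} (k : ℕ) : GM M b (mono ![k]) := by
  classical
  have he : mono ![k] = fun _ : Fin 1 => (X 0 : MvPolynomial (Fin 1) ℂ) ^ k := by
    funext i
    rw [mono_eq]
    simp
  rw [he]
  rcases Nat.eq_zero_or_pos k with rfl | hk
  · simp only [pow_zero]
    exact gm_oneB hL
  · refine gm_cone hL _ {0} k ⟨Finset.singleton_nonempty 0, hk, fun j => ?_, Or.inl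
      ⟨fun _ => 0, ?_⟩⟩ ∅ (fun A hA => absurd hA (Finset.notMem_empty A))
      (fun p hp hz => ?_) (fun A hA => absurd hA (Finset.notMem_empty A))
    · have h1 := (isWeightedHomogeneous_X ℂ
        (fun i : Fin 1 => if i ∈ ({0} : Finset (Fin 1)) then 1 else 0) 0).pow k
      rw [if_pos (Finset.mem_singleton_self 0), smul_eq_mul, mul_one] at h1
      exact h1
    · have : Unique {x // x ∈ ({0} : Finset (Fin 1))} := inferInstance
      rw [Matrix.det_unique, Matrix.of_apply]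
      have h0 : ((default : {x // x ∈ ({0} : Finset (Fin 1))}) : Fin 1) = 0 :=
        Subsingleton.elim _ _
      rw [h0, Derivation.leibniz_pow, pderiv_X_self]
      intro h1
      have h2 := congrArg (eval fun _ => (1 : ℂ)) h1
      simp only [map_mul, map_pow, smul_eq_mul, nsmul_eq_mul, eval_X, one_pow, mul_one,
        map_zero, map_natCast] at h2
      exact absurd h2 (by exact_mod_cast hk.ne')
    · exfalso
      obtain ⟨i, -, hi⟩ := hp
      apply hi
      have h0 : i = 0 := Subsingleton.elim _ _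
      have h1 := hz 0
      rw [map_pow, eval_X] at h1
      rw [h0]
      exact pow_eq_zero_iff hk.ne' |>.1 h1

/-- **Monomials.** -/
theorem gm_mono {b : Bool} : ∀ {c : ℕ} (m : Fin c → ℕ), GM M b (mono m)
  | 0, m => by
    have he : mono m = fun _ : Fin 1 => (1 : MvPolynomial (Fin 0) ℂ) := by
      funext i
      rw [mono_eq]
      simp
    rw [he]
    exact gm_oneB hL
  | c + 1, m => by
    have h1 := gm_mul hL (b := b) (mono fun i : Fin c => m i.castSucc) (mono ![m (Fin.last c)])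
      (gm_mono fun i : Fin c => m i.castSucc) (gm_pow1 hL (m (Fin.last c)))
    have he : mulF (mono fun i : Fin c => m i.castSucc) (mono ![m (Fin.last c)]) = mono m := by
      funext k
      unfold mulF
      rw [mono_eq, mono_eq, mono_eq, Fin.prod_univ_one, map_prod, map_pow, rename_X,
        Fin.prod_univ_castSucc (fun t : Fin (c + 1) => (X t : MvPolynomial (Fin (c + 1)) ℂ) ^ m t)]
      congr 1
      refine Finset.prod_congr rfl fun i _ => ?_
      rw [map_pow, rename_X]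
      rfl
    rw [he] at h1
    exact h1

/-- **Affinely independent exponents.** -/
theorem gm_sparse {n r : ℕ} (hr : 0 < r) (v : Fin r → Fin n → ℕ) (hv : Ind v) (c : Fin r → ℂ)
    (hc : ∀ j, c j ≠ 0) : GM M true fun _ : Fin 1 => spa v c := by
  classical
  by_cases h2 : 2 ≤ r
  · obtain ⟨S, hS, hz⟩ := Pool.Agent.H1.VS.vind h2 v hv c hc
    have hne : spa v c ≠ 0 := by
      intro h0
      have h1 : Function.Injective v := by
        intro i j hij
        have h3 := hv.injective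
        apply h3
        funext k
        rw [hij]
      have h4 := congrArg (coeff (Finsupp.equivFunOnFinite.symm (v ⟨0, hr⟩))) h0
      rw [Pool.Agent.W425.ND.DefThm.spa_coeff, coeff_zero, Finset.sum_eq_single ⟨0, hr⟩,
        if_pos rfl] at h4
      · exact hc _ h4
      · intro j _ hj
        refine if_neg fun h5 => hj ?_
        exact (h1 (Finsupp.equivFunOnFinite.symm.injective h5)).symm
      · exact fun h => absurd (Finset.mem_univ _) h
    refine ⟨⟨0, hne⟩, S, fun q hq => ?_, ?_⟩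
    · obtain ⟨h3, h4, h5⟩ := hS q hq
      obtain ⟨p, hp⟩ := exists_sf_one _ hne _ h5
      exact ⟨h3, h4, p, hp⟩
    · rw [SW_true]
      exact hz M (Lu ℂ) hL Set.univ Constr.univ
  · obtain rfl : r = 1 := by omega
    refine gm_span (mono (v 0)) (fun _ : Fin 1 => spa v c) ?_ (gm_mono hL (v 0))
    have h1 : mono (v 0) = fun _ : Fin 1 => ∏ t, (X t : MvPolynomial (Fin n) ℂ) ^ v 0 t := by
      funext i
      rw [mono_eq]
    rw [h1, Set.range_const, Set.range_const]
    unfold spa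
    rw [Fin.sum_univ_one]
    exact Ideal.span_singleton_mul_left_unit ((isUnit_iff_ne_zero.2 (hc 0)).map C) _

end base

section ind

theorem span_sumF {n r n' r' : ℕ} (f : Fin r → MvPolynomial (Fin n) ℂ)
    (g : Fin r' → MvPolynomial (Fin n') ℂ) : Ideal.span (Set.range (sumF f g)) =
      (Ideal.span (Set.range f)).map (rename (Fin.castAdd n')) ⊔
        (Ideal.span (Set.range g)).map (rename (Fin.natAdd n)) := by
  have h1 : Set.range (sumF f g) = Set.range (fun j => rename (Fin.castAdd n') (f j)) ∪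
      Set.range (fun j => rename (Fin.natAdd n) (g j)) := by
    have h2 : sumF f g = Sum.elim (fun j => rename (Fin.castAdd n') (f j))
        (fun j => rename (Fin.natAdd n) (g j)) ∘ finSumFinEquiv.symm := rfl
    rw [h2, finSumFinEquiv.symm.surjective.range_comp, Set.Sum.elim_range]
  rw [h1, Ideal.span_union, Ideal.map_span, Ideal.map_span, ← Set.range_comp, ← Set.range_comp]
  rfl

theorem span_mulF {n r n' r' : ℕ} (f : Fin r → MvPolynomial (Fin n) ℂ)
    (g : Fin r' → MvPolynomial (Fin n') ℂ) : Ideal.span (Set.range (mulF f g)) =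
      (Ideal.span (Set.range f)).map (rename (Fin.castAdd n')) *
        (Ideal.span (Set.range g)).map (rename (Fin.natAdd n)) := by
  rw [Ideal.map_span, Ideal.map_span, Ideal.span_mul_span', ← Set.range_comp, ← Set.range_comp]
  congr 1
  ext y
  rw [Set.mem_mul]
  constructor
  · rintro ⟨k, rfl⟩
    exact ⟨_, ⟨(finProdFinEquiv.symm k).1, rfl⟩, _, ⟨(finProdFinEquiv.symm k).2, rfl⟩, rfl⟩
  · rintro ⟨_, ⟨j, rfl⟩, _, ⟨k, rfl⟩, rfl⟩
    refine ⟨finProdFinEquiv (j, k), ?_⟩
    unfold mulF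
    rw [Equiv.symm_apply_apply]
    rfl

theorem span_pwF {n r : ℕ} (f : Fin r → MvPolynomial (Fin n) ℂ) (a : ℕ) :
    Ideal.span (Set.range (pw a f)) = Ideal.span (Set.range f) ^ a :=
  span_pw Pool.Agent.Q299.QT.qt_span (RingHom.id _) a f

/-- there are generators with the statement of the induction -/
def Good (M : Meas ℂ (MK ℂ)) {n : ℕ} (I : Ideal (MvPolynomial (Fin n) ℂ)) : Prop :=
  ∃ (r : ℕ) (f : Fin r → MvPolynomial (Fin n) ℂ), Ideal.span (Set.range f) = I ∧ GM M true f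

variable {M : Meas ℂ (MK ℂ)} (hL : M.L = ((Lu ℂ : (MK ℂ)ˣ) : MK ℂ))
include hL

theorem good_quadrics {n : ℕ} (t : Fin n) (f : MvPolynomial (Fin n) ℂ)
    (hf : ∀ m ∈ f.support, ∑ i ∈ Finset.univ.erase t, m i ≤ 2) (h0 : f ≠ 0) :
    Good M (Ideal.span {f}) :=
  ⟨1, fun _ => f, by rw [Set.range_const], gm_but hL (t := t) hf h0⟩

theorem good_sparse {n r : ℕ} (hr : 0 < r) (v : Fin r → Fin n → ℕ)
    (hv : AffineIndependent ℚ fun j i => (v j i : ℚ)) (c : Fin r → ℂ) (hc : ∀ j, c j ≠ 0) :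
    Good M (Ideal.span {∑ j, C (c j) * ∏ i, X i ^ v j i}) :=
  ⟨1, fun _ => spa v c, by rw [Set.range_const]; rfl, gm_sparse hL hr v hv c hc⟩

theorem good_sum {n m : ℕ} {I : Ideal (MvPolynomial (Fin n) ℂ)}
    {J : Ideal (MvPolynomial (Fin m) ℂ)} (hI : Good M I) (hJ : Good M J) :
    Good M (I.map (rename (Fin.castAdd m)) ⊔ J.map (rename (Fin.natAdd n))) := by
  obtain ⟨r, f, rfl, hf⟩ := hI
  obtain ⟨r', g, rfl, hg⟩ := hJ
  exact ⟨_, sumF f g, span_sumF f g, gm_sum hL f g hf hg⟩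

theorem good_mul {n m : ℕ} {I : Ideal (MvPolynomial (Fin n) ℂ)}
    {J : Ideal (MvPolynomial (Fin m) ℂ)} (hI : Good M I) (hJ : Good M J) :
    Good M (I.map (rename (Fin.castAdd m)) * J.map (rename (Fin.natAdd n))) := by
  obtain ⟨r, f, rfl, hf⟩ := hI
  obtain ⟨r', g, rfl, hg⟩ := hJ
  exact ⟨_, mulF f g, span_mulF f g, gm_mul hL f g hf hg⟩

theorem good_pow {n : ℕ} {I : Ideal (MvPolynomial (Fin n) ℂ)} (a : ℕ) (ha : 1 ≤ a)
    (hI : Good M I) : Good M (I ^ a) := by
  obtain ⟨r, f, rfl, hf⟩ := hI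
  refine ⟨_, Pool.Agent.Q57.QT.reF (pw a f), ?_, gm_span (pw a f) _ ?_ (gm_powB hL f a ha hf)⟩
  · rw [Pool.Agent.Q57.QT.reF_range', span_pwF]
  · rw [Pool.Agent.Q57.QT.reF_range']

theorem good_hyp {n r : ℕ} (f : Fin r → MvPolynomial (Fin n) ℂ)
    (hf : Good M (Ideal.span (Set.range f))) :
    Good M (Ideal.span {∑ j, X (Fin.natAdd n j) * rename (Fin.castAdd r) (f j)}) := by
  obtain ⟨r', g, hg, hG⟩ := hf
  exact ⟨1, fun _ => hypF f, by rw [Set.range_const]; rfl,
    gm_hyp hL f (gm_span g f hg.symm hG)⟩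

omit hL in
theorem good_aut {n : ℕ} {I : Ideal (MvPolynomial (Fin n) ℂ)}
    (φ : MvPolynomial (Fin n) ℂ ≃ₐ[ℂ] MvPolynomial (Fin n) ℂ) (hI : Good M I) :
    Good M (I.map φ) := by
  obtain ⟨r, f, rfl, hf⟩ := hI
  refine ⟨r, fun j => φ (f j), ?_, gm_aut φ f hf⟩
  rw [Ideal.map_span, ← Set.range_comp]
  rfl

/-- the motivic zeta function -/
theorem good_main (hχ : ∀ (ι : Type) [Fintype ι] (S : Set (Pt ℂ ι)),
      M.χ ι S = algebraMap (K0 ℂ) (MK ℂ) (cls ι S)) {n r : ℕ}
    {I : Ideal (MvPolynomial (Fin n) ℂ)} (h : Good M I)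
    (f : Fin r → MvPolynomial (Fin n) ℂ) (hf : Ideal.span (Set.range f) = I) :
    ∃ S : Finset (ℤ × ℤ), GlobMC f S := by
  obtain ⟨r', g, hg, hG⟩ := h
  obtain ⟨-, S, hS, hz⟩ := gm_weak hL f (gm_span g f (hf.trans hg.symm) hG)
  refine ⟨S, hS, ?_⟩
  rw [SW_false] at hz
  exact (zetaId_iff hL hχ f _).2 hz

end ind

end Pool.Agent.H1.VT
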