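import Pool.Agent.H1.VT.Mono
import Pool.Agent.H1.VS.Ind
import Pool.Agent.H1.TB.MR

set_option autoImplicit false
set_option linter.unusedSectionVars false
set_option linter.unusedVariables false

/-! # The volume series of the model polynomials along the fibre -/

namespace Pool.Agent.H1.VT

open MvPolynomial Pool.Agent.W428.MOT Pool.Agent.TH192.MT Pool.Agent.TH192.DT Pool.Agent.Q49.CO
open Pool.Agent.Y229 Pool.Agent.Q57.MC Pool.Agent.Q57.MD
open Pool.Agent.H1.TB
open Pool.Agent.W425.ND (spa)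
open Pool.Agent.W425.SM (Ind)
open Pool.Agent.H628R4.TP (IsBFunction)

section

variable {M : Meas ℂ (MK ℂ)} (hL : M.L = ((Lu ℂ : (MK ℂ)ˣ) : MK ℂ))
include hL

/-- the powers of the parameter -/
theorem pow_rat {N : Type} [Fintype N] [DecidableEq N] (k : ℕ) :
    ∃ Q : Finset (ℤ × ℤ), (∀ q ∈ Q, q.1 < 0 ∧ 0 < q.2 ∧ ∃ p, cpt p ∈ F0 ℂ N ∧
      SF (fun _ : Fin 1 => (X none ^ k : MvPolynomial (Option N) ℂ)) p ((q.1 : ℂ) / q.2)) ∧
      SW M true (((Lu ℂ)⁻¹ : (MK ℂ)ˣ) : MK ℂ)
        (fun _ : Fin 1 => (X none ^ k : MvPolynomial (Option N) ℂ)) (F0 ℂ N) ∈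
          ratU (Lu ℂ) (Q : Set (ℤ × ℤ)) := by
  classical
  refine charts_on hL (fun _ : Fin 1 => (X none ^ k : MvPolynomial (Option N) ℂ))
    {⟨1, 1, ![X none], 1, ![none], mono ![k]⟩} ?_ _ constr_F0 ?_ ?_
  · intro A hA
    rw [Finset.mem_singleton.1 hA]
    refine fits_mono ![X none] 1 ![k] 0 ![none] _ ?_
    simp
  · intro p hp _
    refine ⟨_, Finset.mem_singleton_self _, ?_, ?_, ?_⟩
    · simp
    · intro t
      have h0 : t = 0 := Subsingleton.elim _ _
      subst h0
      change eval p (X none) = 0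
      rw [eval_X]
      exact (map_eq_zero _).1 hp
    · simp [Matrix.det_fin_one]
  · intro A hA
    rw [Finset.mem_singleton.1 hA]
    exact Pool.Agent.H1.VT.pm_mono hL _

/-- the monomials -/
theorem mon_rat {N : Type} [Fintype N] [DecidableEq N] (i : N) (m e : ℕ) (he : 0 < e) :
    ∃ Q : Finset (ℤ × ℤ), (∀ q ∈ Q, q.1 < 0 ∧ 0 < q.2 ∧ ∃ p, cpt p ∈ F0 ℂ N ∧
      SF (fun _ : Fin 1 => (X none ^ m * X (some i) ^ e : MvPolynomial (Option N) ℂ)) p
        ((q.1 : ℂ) / q.2)) ∧
      SW M true (((Lu ℂ)⁻¹ : (MK ℂ)ˣ) : MK ℂ)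
        (fun _ : Fin 1 => (X none ^ m * X (some i) ^ e : MvPolynomial (Option N) ℂ))
          (F0 ℂ N) ∈ ratU (Lu ℂ) (Q : Set (ℤ × ℤ)) := by
  classical
  refine charts_on hL
    (fun _ : Fin 1 => (X none ^ m * X (some i) ^ e : MvPolynomial (Option N) ℂ))
    {⟨2, 1, ![X none, X (some i)], 1, ![none, some i], mono ![m, e]⟩,
      ⟨1, 1, ![X none], X (some i), ![none], mono ![m]⟩} ?_ _ constr_F0 ?_ ?_
  · intro A hA
    rcases Finset.mem_insert.1 hA with rfl | hA
    · refine fits_mono ![X none, X (some i)] 1 ![m, e] 0 ![none, some i] _ ?_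
      simp
    · rw [Finset.mem_singleton.1 hA]
      refine fits_mono ![X none] (X (some i)) ![m] e ![none] _ ?_
      simp [mul_comm]
  · intro p hp hz
    have h0 : p none = 0 := (map_eq_zero _).1 hp
    by_cases hi : p (some i) = 0
    · refine ⟨_, Finset.mem_insert_self _ _, ?_, ?_, ?_⟩
      · simp
      · intro t
        fin_cases t
        · change eval p (X none) = 0
          rw [eval_X, h0]
        · change eval p (X (some i)) = 0
          rw [eval_X, hi]
      · simp only [Matrix.det_fin_two, Matrix.of_apply]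
        simp [pderiv_X, Pi.single_apply]
    · refine ⟨_, Finset.mem_insert_of_mem (Finset.mem_singleton_self _), ?_, ?_, ?_⟩
      · simpa using hi
      · intro t
        have h0' : t = 0 := Subsingleton.elim _ _
        subst h0'
        change eval p (X none) = 0
        rw [eval_X, h0]
      · simp [Matrix.det_fin_one]
  · intro A hA
    rcases Finset.mem_insert.1 hA with rfl | hA
    · exact Pool.Agent.H1.VT.pm_mono hL _
    · rw [Finset.mem_singleton.1 hA]
      exact Pool.Agent.H1.VT.pm_mono hL _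

/-- **Affinely independent exponents, with arbitrary names of the variables.** -/
theorem sparse_rat {σ J : Type} [Fintype σ] [DecidableEq σ] [Fintype J] (E : J → σ → ℕ)
    (hE : ∀ w : J → ℚ, ∑ j, w j = 0 → (∀ i, ∑ j, w j * E j i = 0) → ∀ j, w j = 0)
    (h2 : 2 ≤ Fintype.card J) (hne : (∑ j, ∏ i, (X i : MvPolynomial σ ℂ) ^ E j i) ≠ 0)
    {W : Set (Pt ℂ σ)} (hW : Constr W) :
    ∃ S : Finset (ℤ × ℤ), (∀ q ∈ S, q.1 < 0 ∧ 0 < q.2 ∧
      ∃ p, SF (fun _ : Fin 1 => ∑ j, ∏ i, (X i : MvPolynomial σ ℂ) ^ E j i) p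
        ((q.1 : ℂ) / q.2)) ∧
      SW M true (((Lu ℂ)⁻¹ : (MK ℂ)ˣ) : MK ℂ)
        (fun _ : Fin 1 => ∑ j, ∏ i, (X i : MvPolynomial σ ℂ) ^ E j i) W ∈
          ratU (Lu ℂ) (S : Set (ℤ × ℤ)) := by
  classical
  have hv : M.L * (((Lu ℂ)⁻¹ : (MK ℂ)ˣ) : MK ℂ) = 1 := by rw [hL, Units.mul_inv]
  set eJ := Fintype.equivFin J with heJ
  set e := Fintype.equivFin σ with he
  set v : Fin (Fintype.card J) → Fin (Fintype.card σ) → ℕ := fun j i =>
    E (eJ.symm j) (e.symm i) with hvd
  set F : MvPolynomial σ ℂ := ∑ j, ∏ i, (X i : MvPolynomial σ ℂ) ^ E j i with hF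
  have hind : Ind v := by
    unfold Ind
    rw [affineIndependent_iff_of_fintype]
    intro w hw hs j
    rw [Finset.weightedVSub_eq_weightedVSubOfPoint_of_sum_eq_zero _ _ _ hw
      (0 : Fin (Fintype.card σ) → ℚ), Finset.weightedVSubOfPoint_apply] at hs
    have h1 := hE (fun j => w (eJ j)) (by rw [eJ.sum_comp]; exact hw) (fun i => by
      have h3 := congrFun hs (e i)
      rw [Finset.sum_apply, Pi.zero_apply] at h3
      rw [← h3, ← eJ.sum_comp]
      refine Finset.sum_congr rfl fun j' _ => ?_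
      rw [hvd]
      simp) (eJ.symm j)
    rwa [Equiv.apply_symm_apply] at h1
  have hren : F = rename e.symm (spa v fun _ => (1 : ℂ)) := by
    rw [hF]
    unfold spa
    rw [map_sum, ← eJ.symm.sum_comp]
    refine Finset.sum_congr rfl fun j _ => ?_
    rw [map_one, one_mul, map_prod, ← e.symm.prod_comp]
    refine Finset.prod_congr rfl fun i _ => ?_
    rw [map_pow, rename_X]
  obtain ⟨S, hS, hz⟩ := Pool.Agent.H1.VS.vind h2 v hind (fun _ => 1)
    (fun _ => one_ne_zero)
  have hne' : (spa v fun _ => (1 : ℂ)) ≠ 0 := by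
    intro h0
    apply hne
    rw [hren, h0, map_zero]
  refine ⟨S, fun q hq => ?_, ?_⟩
  · obtain ⟨h3, h4, h5⟩ := hS q hq
    obtain ⟨p, hp⟩ := exists_sf_one _ hne' _ h5
    refine ⟨h3, h4, p ∘ e, ?_⟩
    refine sf_equiv e.symm (Equiv.refl (Fin 1)) (fun _ : Fin 1 => spa v fun _ => (1 : ℂ))
      (fun _ : Fin 1 => F) (fun _ => hren) (p ∘ e) _ ?_
    have h6 : (p ∘ e) ∘ e.symm = p := by
      funext i
      simp
    rw [h6]
    exact hp
  · set W0 : Set (Pt ℂ (Fin (Fintype.card σ))) := {y | (fun o => y (e o)) ∈ W} with hW0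
    have hW0c : Constr W0 := hW.preimage (fun (y : Pt ℂ (Fin (Fintype.card σ))) (o : σ) =>
      y (e o)) fun o => IsPF.coord _
    have h4 := hz M (Lu ℂ) hL W0 hW0c
    rw [SW_ren M hv e.symm (Equiv.refl (Fin 1)) (fun _ : Fin 1 => spa v fun _ => (1 : ℂ))
      (fun _ : Fin 1 => F) (fun _ => hren) hW0c (W' := W) fun z => by
        rw [hW0, Set.mem_ofPred_eq]
        simp, SW_true]
    exact h4

variable {N T : Type} [Fintype N] [DecidableEq N] [Fintype T] [DecidableEq T]

/-- **The model polynomials along the fibre over `0`.** -/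
theorem mdl_rat (ι : T → N) (hι : Function.Injective ι) (m e : T → ℕ)
    (he : ∀ j, 0 < e j) (ζ : Bool) (k : ℕ) (hk : ζ = true → ∀ j, m j ≤ k)
    (h : Nonempty T ∨ ζ = true) :
    ∃ Q : Finset (ℤ × ℤ), (∀ q ∈ Q, q.1 < 0 ∧ 0 < q.2 ∧ ∃ p : Option N → ℂ, p none = 0 ∧
      SF (fun _ : Fin 1 => mdl ℂ ι m e ζ k) p ((q.1 : ℂ) / q.2)) ∧
      SW M true (((Lu ℂ)⁻¹ : (MK ℂ)ˣ) : MK ℂ)
        (fun _ : Fin 1 => mdl ℂ ι m e ζ k) (F0 ℂ N) ∈ ratU (Lu ℂ) (Q : Set (ℤ × ℤ)) := by
  classical
  have hne := mdl_ne ι hι m e he ζ k h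
  have hfib : ∀ p : Option N → ℂ, cpt p ∈ F0 ℂ N → p none = 0 := fun p hp =>
    (map_eq_zero _).1 hp
  -- limits of points
  have hlim : ∀ α : ℂ, (∃ p, SF (fun _ : Fin 1 => mdl ℂ ι m e ζ k) p α) →
      ∃ p : Option N → ℂ, p none = 0 ∧ SF (fun _ : Fin 1 => mdl ℂ ι m e ζ k) p α := by
    rintro α ⟨p, hp⟩
    obtain ⟨w, d, hw, hs⟩ := mdl_weights ι hι m e he ζ k hk
    refine ⟨_, ?_, sf_weights _ w d hs hne p α hp⟩
    exact if_neg hw
  cases ζ
  · -- no pure power
    have hT : Nonempty T := h.resolve_right (by simp)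
    have hF : mdl ℂ ι m e false k =
        ∑ j, ∏ o, (X o : MvPolynomial (Option N) ℂ) ^ mexp ι m e j o := by
      unfold mdl
      simp only [mexp_prod]
      simp
    by_cases h2 : 2 ≤ Fintype.card T
    · obtain ⟨S, hS, hz⟩ := sparse_rat hL (mexp ι m e) (fun w _ hw j => by
        have h3 := hw (some (ι j))
        rw [Finset.sum_eq_single j] at h3
        · simp only [mexp] at h3
          rw [if_neg (by simp), if_pos trivial, zero_add] at h3
          exact (mul_eq_zero.1 h3).resolve_right (by exact_mod_cast (he j).ne')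
        · intro j' _ hj'
          simp only [mexp]
          rw [if_neg (by simp), if_neg, zero_add, Nat.cast_zero, mul_zero]
          exact fun h => hj' (hι (Option.some_injective _ h).symm)
        · exact fun h => absurd (Finset.mem_univ _) h) h2 (by rw [← hF]; exact hne)
        (constr_F0 (K := ℂ) (N := N))
      rw [← hF] at hS hz
      exact ⟨S, fun q hq => ⟨(hS q hq).1, (hS q hq).2.1, hlim _ (hS q hq).2.2⟩, hz⟩
    · obtain ⟨j₀⟩ := hT
      have hsub : Subsingleton T := Fintype.card_le_one_iff_subsingleton.1 (by omega)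
      have hu : mdl ℂ ι m e false k = X none ^ m j₀ * X (some (ι j₀)) ^ e j₀ := by
        unfold mdl
        rw [Fintype.sum_subsingleton _ j₀]
        simp
      obtain ⟨S, hS, hz⟩ := mon_rat hL (N := N) (ι j₀) (m j₀) (e j₀) (he j₀)
      rw [← hu] at hS hz
      exact ⟨S, fun q hq => ⟨(hS q hq).1, (hS q hq).2.1, by
        obtain ⟨p, hp, hp'⟩ := (hS q hq).2.2
        exact ⟨p, hfib p hp, hp'⟩⟩, hz⟩
  · -- with a pure power
    rcases isEmpty_or_nonempty T with hT | hT
    · have hu : mdl ℂ ι m e true k = X none ^ k := by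
        unfold mdl
        rw [Finset.sum_of_isEmpty, zero_add, if_pos rfl]
      obtain ⟨S, hS, hz⟩ := pow_rat hL (N := N) k
      rw [← hu] at hS hz
      exact ⟨S, fun q hq => ⟨(hS q hq).1, (hS q hq).2.1, by
        obtain ⟨p, hp, hp'⟩ := (hS q hq).2.2
        exact ⟨p, hfib p hp, hp'⟩⟩, hz⟩
    · set E : Option T → Option N → ℕ := fun o => o.elim (fun i => if i = none then k else 0)
        (mexp ι m e) with hE
      have hF : mdl ℂ ι m e true k =
          ∑ j, ∏ o, (X o : MvPolynomial (Option N) ℂ) ^ E j o := by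
        rw [Fintype.sum_option, add_comm]
        unfold mdl
        congr 1
        · refine Finset.sum_congr rfl fun j _ => ?_
          exact (mexp_prod ι m e j X).symm
        · rw [if_pos rfl, hE]
          simp only [Option.elim, pow_ite, pow_zero, Finset.prod_ite_eq', Finset.mem_univ,
            if_true]
      obtain ⟨S, hS, hz⟩ := sparse_rat hL E (fun w hw0 hw => by
        have hj : ∀ j, w (some j) = 0 := by
          intro j
          have h3 := hw (some (ι j))
          rw [Fintype.sum_option, Finset.sum_eq_single j] at h3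
          · simp only [hE, Option.elim, mexp] at h3
            rw [if_neg (by simp), if_neg (by simp), if_pos trivial, Nat.cast_zero, mul_zero,
              zero_add, zero_add] at h3
            exact (mul_eq_zero.1 h3).resolve_right (by exact_mod_cast (he j).ne')
          · intro j' _ hj'
            simp only [hE, Option.elim, mexp]
            rw [if_neg (by simp), if_neg, zero_add, Nat.cast_zero, mul_zero]
            exact fun h => hj' (hι (Option.some_injective _ h).symm)
          · exact fun h => absurd (Finset.mem_univ _) h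
        rw [Fintype.sum_option, Finset.sum_eq_zero fun j _ => hj j, add_zero] at hw0
        rintro (_ | j)
        · exact hw0
        · exact hj j) (by
          rw [Fintype.card_option]
          have := Fintype.card_pos (α := T)
          omega) (by rw [← hF]; exact hne)
        (constr_F0 (K := ℂ) (N := N))
      rw [← hF] at hS hz
      exact ⟨S, fun q hq => ⟨(hS q hq).1, (hS q hq).2.1, hlim _ (hS q hq).2.2⟩, hz⟩

end

end Pool.Agent.H1.VT
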