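import Pool.Agent.H1.TB.Ch

set_option autoImplicit false
set_option linter.unusedSectionVars false
set_option linter.unusedVariables false

/-! # The volume series of monomials -/

namespace Pool.Agent.H1.VT

open MvPolynomial Pool.Agent.W428.MOT Pool.Agent.TH192.MT Pool.Agent.TH192.DT Pool.Agent.Q49.CO
open Pool.Agent.Y229 Pool.Agent.Q57.MC Pool.Agent.Q57.MD Pool.Agent.H1.TB

section

variable {M : Meas ℂ (MK ℂ)} (hL : M.L = ((Lu ℂ : (MK ℂ)ˣ) : MK ℂ))
include hL

/-- the constant polynomial -/
theorem pm_one {b : Bool} {σ : Type} [Fintype σ] :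
    PM M b (fun _ : Fin 1 => (1 : MvPolynomial σ ℂ)) := by
  classical
  have hv : M.L * (((Lu ℂ)⁻¹ : (MK ℂ)ˣ) : MK ℂ) = 1 := by rw [hL, Units.mul_inv]
  refine ⟨⟨0, one_ne_zero⟩, ∅, fun q hq => absurd hq (Finset.notMem_empty q), ?_⟩
  obtain ⟨a, ha⟩ := SW_off M (b := b) hv (fun _ : Fin 1 => (1 : MvPolynomial σ ℂ))
    (W := {0}) constr_pt0 fun w _ => ⟨0, by rw [map_one]; exact one_ne_zero⟩
  rw [ha]
  exact rat_C _ _

/-- the powers of one variable -/
theorem pm_pow {b : Bool} (k : ℕ) : PM M b (mono ![k]) := by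
  classical
  have he : mono ![k] = fun _ : Fin 1 => (X 0 : MvPolynomial (Fin 1) ℂ) ^ k := by
    funext i
    rw [mono_eq]
    simp
  rw [he]
  rcases Nat.eq_zero_or_pos k with rfl | hk
  · simp only [pow_zero]
    exact pm_one hL
  · refine pm_cone hL _ {0} k ⟨Finset.singleton_nonempty 0, hk, fun j => ?_, Or.inl
      ⟨fun _ => 0, ?_⟩⟩ ∅ (fun A hA => absurd hA (Finset.notMem_empty A))
      (fun p hp _ hz => ?_) (fun A hA => absurd hA (Finset.notMem_empty A))
    · have h1 := (isWeightedHomogeneous_X ℂ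
        (fun i : Fin 1 => if i ∈ ({0} : Finset (Fin 1)) then 1 else 0) 0).pow k
      rw [if_pos (Finset.mem_singleton_self 0), smul_eq_mul, mul_one] at h1
      exact h1
    · have : Unique {x // x ∈ ({0} : Finset (Fin 1))} := inferInstance
      rw [Matrix.det_unique, Matrix.of_apply]
      have h0 : ((default : {x // x ∈ ({0} : Finset (Fin 1))}) : Fin 1) = 0 :=
        Subsingleton.elim _ _
      rw [h0, Derivation.leibniz_pow, pderiv_X_self]
      intro h1
      have h2 := congrArg (eval fun _ => (1 : ℂ)) h1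
      simp only [map_mul, map_pow, smul_eq_mul, nsmul_eq_mul, eval_X, one_pow, mul_one,
        map_zero, map_natCast] at h2
      exact absurd h2 (by exact_mod_cast hk.ne')
    · exfalso
      apply hp
      funext i
      have h0 : i = 0 := Subsingleton.elim _ _
      have h1 := hz 0
      rw [map_pow, eval_X] at h1
      rw [h0]
      exact pow_eq_zero_iff hk.ne' |>.1 h1

/-- **Monomials.** -/
theorem pm_mono {b : Bool} : ∀ {c : ℕ} (m : Fin c → ℕ), PM M b (mono m)
  | 0, m => by
    have he : mono m = fun _ : Fin 1 => (1 : MvPolynomial (Fin 0) ℂ) := by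
      funext i
      rw [mono_eq]
      simp
    rw [he]
    exact pm_one hL
  | c + 1, m => by
    have h1 := pm_mul hL (b := b) (mono fun i : Fin c => m i.castSucc) (mono ![m (Fin.last c)])
      (pm_mono fun i : Fin c => m i.castSucc) (pm_pow hL (m (Fin.last c)))
    have he : mulF (mono fun i : Fin c => m i.castSucc) (mono ![m (Fin.last c)]) = mono m := by
      funext k
      unfold mulF
      rw [mono_eq, mono_eq, mono_eq, Fin.prod_univ_one, map_prod, map_pow, rename_X,
        Fin.prod_univ_castSucc (fun t : Fin (c + 1) => (X t : MvPolynomial (Fin (c + 1)) ℂ) ^ m t)]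
      congr 1
      refine Finset.prod_congr rfl fun i _ => ?_
      rw [map_pow, rename_X]
      rfl
    rw [he] at h1
    exact h1

end

end Pool.Agent.H1.VT
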