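import Pool.Agent.H1.VT.Asm
import Pool.Agent.H1.VS.Ind

set_option autoImplicit false
set_option linter.unusedSectionVars false
set_option linter.unusedVariables false

/-! # Operations on the ideals of the class: generators, powers, automorphisms -/

namespace Pool.Agent.H1.VT

open MvPolynomial Pool.Agent.W428.MOT Pool.Agent.TH192.MT Pool.Agent.TH192.DT Pool.Agent.Q49.CO
open Pool.Agent.Y229 Pool.Agent.Q57.MC Pool.Agent.Q57.MD Pool.Agent.H1.TB
open Pool.Agent.Q57.QT (pw pw_ne reF reF_range' reF_ex vol_span sf_span ne_span neg_not_nat)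
open Pool.Agent.Q299.QT (vol_pw qt_dil dil_eq)

section shift

variable {R : Type} [CommRing R]

/-- the series `(V - V_0) / T` -/
noncomputable def tail (V : PowerSeries R) : PowerSeries R :=
  PowerSeries.mk fun N => PowerSeries.coeff (N + 1) V

theorem tail_spec (V : PowerSeries R) :
    V = PowerSeries.C (PowerSeries.coeff 0 V) + PowerSeries.X * tail V := by
  ext N
  rcases N with _ | N
  · rw [map_add, PowerSeries.coeff_zero_C, PowerSeries.coeff_zero_X_mul, add_zero]
  · rw [map_add, PowerSeries.coeff_succ_X_mul, tail, PowerSeries.coeff_mk,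
      PowerSeries.coeff_C, if_neg (Nat.succ_ne_zero N), zero_add]

theorem tail_unique {V W : PowerSeries R} (c : R)
    (h : V = PowerSeries.C c + PowerSeries.X * W) : tail V = W := by
  ext N
  rw [tail, PowerSeries.coeff_mk, h, map_add, PowerSeries.coeff_succ_X_mul,
    PowerSeries.coeff_C, if_neg (Nat.succ_ne_zero N), zero_add]

theorem tail_mem (u : Rˣ) (S : Set (ℤ × ℤ)) (hS : ∀ q ∈ S, 0 < q.2) (V : PowerSeries R)
    (hV : V ∈ ratU u S) : tail V ∈ ratU u S := by
  induction hV using Algebra.adjoin_induction with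
  | mem Z h =>
    rcases h with h | ⟨⟨s, N⟩, hp, rfl⟩
    · rw [Set.mem_singleton_iff.1 h, tail_unique (V := PowerSeries.X) (W := 1) (0 : R)
        (by rw [map_zero, zero_add, mul_one])]
      exact Subalgebra.one_mem _
    · have hN : 0 < N := hS _ hp
      have h1 := Pool.Agent.Q57.MD.geoU_spec u s N hN
      obtain ⟨m, hm⟩ : ∃ m, N.toNat = m + 1 := ⟨N.toNat - 1, by omega⟩
      rw [hm] at h1
      have h2 : tail (geoU u s N) = PowerSeries.C ((u ^ s : Rˣ) : R) * PowerSeries.X ^ m *
          geoU u s N := by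
        refine tail_unique (1 : R) ?_
        rw [map_one]
        linear_combination h1
      rw [h2]
      exact Subalgebra.mul_mem _ (Subalgebra.mul_mem _ (rat_C _ _)
        (Subalgebra.pow_mem _ (rat_X _) _)) (Algebra.subset_adjoin (Or.inr ⟨(s, N), hp, rfl⟩))
  | algebraMap r =>
    have h1 : (algebraMap R (PowerSeries R)) r = PowerSeries.C r := rfl
    rw [h1, tail_unique (V := PowerSeries.C r) (W := 0) r (by rw [mul_zero, add_zero])]
    exact Subalgebra.zero_mem _
  | add Z Z' _ _ h h' =>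
    rw [tail_unique (V := Z + Z') (W := tail Z + tail Z')
      (PowerSeries.coeff 0 Z + PowerSeries.coeff 0 Z') (by
        conv_lhs => rw [tail_spec Z, tail_spec Z']
        rw [map_add]
        ring)]
    exact Subalgebra.add_mem _ h h'
  | mul Z Z' hZ hZ' h h' =>
    rw [tail_unique (V := Z * Z') (W := tail Z * Z' +
      PowerSeries.C (PowerSeries.coeff 0 Z) * tail Z')
      (PowerSeries.coeff 0 Z * PowerSeries.coeff 0 Z') (by
        have e1 := tail_spec Z
        have e2 := tail_spec Z'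
        rw [map_mul]
        linear_combination Z' * e1 + PowerSeries.C (PowerSeries.coeff 0 Z) * e2)]
    exact Subalgebra.add_mem _ (Subalgebra.mul_mem _ h hZ')
      (Subalgebra.mul_mem _ (rat_C _ _) h')

/-- the series of the `V_⌈N / a⌉` -/
theorem up_eq (a : ℕ) (ha : 1 ≤ a) (V : PowerSeries R) :
    (PowerSeries.mk fun N => PowerSeries.coeff ((N + a - 1) / a) V) =
      PowerSeries.C (PowerSeries.coeff 0 V) + PowerSeries.X *
        ((∑ i ∈ Finset.range a, PowerSeries.X ^ i) *
          PowerSeries.expand a (by omega) (tail V)) := by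
  have ha0 : a ≠ 0 := by omega
  ext N
  rcases N with _ | N
  · rw [PowerSeries.coeff_mk, map_add, PowerSeries.coeff_zero_C, PowerSeries.coeff_zero_X_mul,
      add_zero, zero_add, Nat.div_eq_of_lt (by omega)]
  · rw [PowerSeries.coeff_mk, map_add, PowerSeries.coeff_succ_X_mul,
      PowerSeries.coeff_C, if_neg (Nat.succ_ne_zero N), zero_add, Finset.sum_mul, map_sum,
      Finset.sum_eq_single (N % a)]
    · rw [PowerSeries.coeff_X_pow_mul', if_pos (Nat.mod_le N a)]
      have h1 : N - N % a = a * (N / a) := by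
        have := Nat.div_add_mod N a
        omega
      rw [h1, PowerSeries.coeff_expand_mul, tail, PowerSeries.coeff_mk]
      congr 2
      have h2 : N + 1 + a - 1 = N + a := by omega
      rw [h2, Nat.add_div_right _ (by omega)]
    · intro i hi hne
      rw [PowerSeries.coeff_X_pow_mul']
      split_ifs with h
      · refine PowerSeries.coeff_expand_of_not_dvd _ _ _ ?_
        rintro ⟨k, hk⟩
        apply hne
        have h3 : N = i + a * k := by omega
        rw [h3, Nat.add_mul_mod_self_left, Nat.mod_eq_of_lt (Finset.mem_range.1 hi)]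
      · rfl
    · intro h
      exact absurd (Finset.mem_range.2 (Nat.mod_lt _ (by omega))) h

end shift

section ops

variable {M : Meas ℂ (MK ℂ)} (hL : M.L = ((Lu ℂ : (MK ℂ)ˣ) : MK ℂ))

/-- **Other generators.** -/
theorem gm_span {b : Bool} {n : ℕ} {J K : Type} [Fintype J] [Fintype K]
    (f : J → MvPolynomial (Fin n) ℂ) (g : K → MvPolynomial (Fin n) ℂ)
    (hs : Ideal.span (Set.range g) = Ideal.span (Set.range f)) (h : GM M b f) :
    GM M b g := by
  classical
  obtain ⟨hf, S, hS, hz⟩ := h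
  refine ⟨ne_span f g hs hf, S, fun q hq => ?_, ?_⟩
  · obtain ⟨h1, h2, p, h3⟩ := hS q hq
    exact ⟨h1, h2, p, sf_span Pool.Agent.Q149.QT.qt_trans f g hf hs p _ h3⟩
  · have h1 : SW M b (((Lu ℂ)⁻¹ : (MK ℂ)ˣ) : MK ℂ) g Set.univ =
        SW M b (((Lu ℂ)⁻¹ : (MK ℂ)ˣ) : MK ℂ) f Set.univ := by
      cases b
      · rw [SW_false, SW_false]
        exact Pool.Agent.Q57.QT.ZW_span M _ f g hs _
      · rw [SW_true, SW_true]
        ext N
        rw [coeff_VW, coeff_VW]
        exact vol_span M _ f g hs _ N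
    rw [h1]
    exact hz

include hL

/-- **Powers of ideals.** -/
theorem gm_powB {n r : ℕ} (f : Fin r → MvPolynomial (Fin n) ℂ) (a : ℕ) (ha : 1 ≤ a)
    (h : GM M true f) : GM M true (pw a f) := by
  classical
  have hv : M.L * (((Lu ℂ)⁻¹ : (MK ℂ)ˣ) : MK ℂ) = 1 := by rw [hL, Units.mul_inv]
  obtain ⟨hf, S, hS, hz⟩ := h
  refine ⟨pw_ne a f hf, S.image fun q => (q.1, (a : ℤ) * q.2), fun q hq => ?_, ?_⟩
  · obtain ⟨q', hq', rfl⟩ := Finset.mem_image.1 hq
    obtain ⟨h1, h2, p, h3⟩ := hS q' hq'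
    refine ⟨h1, mul_pos (by exact_mod_cast ha) h2, p, ?_⟩
    have h4 := Pool.Agent.Q92.QT.qt_powsf f a ha p _ (neg_not_nat h1 h2) h3
    have h5 : ((q'.1 : ℂ) / (((a : ℤ) * q'.2 : ℤ) : ℂ)) = (q'.1 : ℂ) / q'.2 / a := by
      push_cast
      rw [div_div, mul_comm]
    simp only
    rw [h5]
    exact h4
  · rw [SW_true] at hz ⊢
    have h1 : VW M (((Lu ℂ)⁻¹ : (MK ℂ)ˣ) : MK ℂ) (pw a f) Set.univ =
        PowerSeries.mk fun N => PowerSeries.coeff ((N + a - 1) / a)
          (VW M (((Lu ℂ)⁻¹ : (MK ℂ)ˣ) : MK ℂ) f Set.univ) := by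
      ext N
      rw [coeff_VW, PowerSeries.coeff_mk, coeff_VW]
      exact vol_pw M hv f Constr.univ a ha N
    rw [h1, up_eq a ha]
    refine Subalgebra.add_mem _ (rat_C _ _) (Subalgebra.mul_mem _ (rat_X _)
      (Subalgebra.mul_mem _ (Subalgebra.sum_mem _ fun i _ => Subalgebra.pow_mem _ (rat_X _) _)
        ?_))
    rw [← dil_eq a (by omega)]
    exact qt_dil (Lu ℂ) S (fun q hq => (hS q hq).2.1) _
      (tail_mem (Lu ℂ) _ (fun q hq => (hS q (Finset.mem_coe.1 hq)).2.1) _ hz) a ha

end ops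

end Pool.Agent.H1.VT
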